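import Pool.Agent.H94.G4T.AD.Defs
import Pool.Agent.H94.G4T.M02

/-!
# TG Defs: projective manifolds of dimension `k + 2` over complex tori of dimension `k + 1`, arbitrary singular fibres

`X` is the cone (without `0`) over a projective manifold of dimension `k + 2`, `u` a holomorphic map to `ℂ^(k+1) / Λ` (a function `u : EN N → Vd (k+1)`
which is holomorphic modulo `Λ`).  `D ⊆ ℂ^(k+1)` is the set of the bad values (closed, `Λ`-invariant, contained in hypersurfaces), `B ⊆ D` the set of the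
very bad values, which almost every line avoids.  Over `D \ B` the map `u` is `(x^a y^b, s)` in suitable coordinates.  Charts are `AD.Chart (k + 2) X`
(polydisc of radius `2` for the sup norm); the coordinate `0` is the coordinate along the fibres, the others (`tl p`) those of the base.
All norms and balls in `Vd (k+1)` are for the sup norm.
-/

set_option autoImplicit false

open Topology Filter Metric

namespace Pool.Agent.TG

open Pool.Agent.H36.BP (EN wd)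
open Pool.Agent.H14.PP (IsCone CurveAt Tan)
open Pool.Agent.H62.EF (MN pr)
open Pool.Agent.AD (Vd Chart Charts)

variable {N k : ℕ}

/-- `u` is a holomorphic map from the variety with the cone `X` to `ℂ^(k+1) / Λ` -/
structure TMap (X : Set (EN N)) (Λ : AddSubgroup (Vd (k + 1))) (u : EN N → Vd (k + 1)) : Prop where
  smul : ∀ x ∈ X, ∀ c : ℂ, c ≠ 0 → u (c • x) - u x ∈ Λ
  loc : ∀ x ∈ X, ∃ v : EN N → Vd (k + 1), AnalyticAt ℂ v x ∧ ∀ᶠ y in 𝓝 x, y ∈ X → u y - v y ∈ Λ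

/-- the coordinates `1, …, k + 1` -/
def tl (p : Vd (k + 2)) : Vd (k + 1) := fun i => p i.succ

/-- `κ` is a system of local coordinates at `y` in which `D` is `{q 0 = 0}` -/
structure IsCoord (D : Set (Vd (k + 1))) (κ : Vd (k + 1) → Vd (k + 1)) (y : Vd (k + 1)) : Prop where
  an : AnalyticAt ℂ κ 0
  zero : κ 0 = y
  inj : Function.Injective (fderiv ℂ κ 0)
  mem_iff : ∀ᶠ q in 𝓝 (0 : Vd (k + 1)), (κ q ∈ D ↔ q 0 = 0)

/-- a holomorphic `(k+2)`-form on `{(x, y) : u x = y mod Λ}` -/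
structure VForm (X : Set (EN N)) (Λ : AddSubgroup (Vd (k + 1))) (u : EN N → Vd (k + 1)) where
  /-- the form: `toFun y x v` for `u x = y mod Λ` and `k + 2` tangent vectors `v` at `x` -/
  toFun : Vd (k + 1) → EN N → (Fin (k + 2) → EN N) → ℂ
  add_smul : ∀ y, ∀ x ∈ X, u x - y ∈ Λ → ∀ v : Fin (k + 2) → EN N, (∀ i, Tan X x (v i)) → ∀ a : Fin (k + 2) → ℂ,
    toFun y x (fun i => v i + a i • x) = toFun y x v
  det : ∀ y, ∀ x ∈ X, u x - y ∈ Λ → ∀ v : Fin (k + 2) → EN N, (∀ i, Tan X x (v i)) → ∀ A : Matrix (Fin (k + 2)) (Fin (k + 2)) ℂ,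
    toFun y x (fun i => ∑ j, A i j • v j) = A.det * toFun y x v
  scale : ∀ y, ∀ x ∈ X, u x - y ∈ Λ → ∀ v : Fin (k + 2) → EN N, (∀ i, Tan X x (v i)) → ∀ c : ℂ, c ≠ 0 →
    toFun y (c • x) (fun i => c • v i) = toFun y x v
  analytic : ∀ (φ : Vd (k + 2) → EN N) (υ : Vd (k + 2) → Vd (k + 1)) (p : Vd (k + 2)), AnalyticAt ℂ φ p → AnalyticAt ℂ υ p →
    (∀ᶠ q in 𝓝 p, φ q ∈ X ∧ u (φ q) - υ q ∈ Λ) →
    AnalyticAt ℂ (fun q => toFun (υ q) (φ q) fun i => fderiv ℂ φ q (Pi.single i 1)) p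

variable {X : Set (EN N)} {Λ : AddSubgroup (Vd (k + 1))} {u : EN N → Vd (k + 1)}

/-- the coefficient of the form in the chart `χ` with the lift `υ` of `u` -/
noncomputable def tc (α : VForm X Λ u) (χ : Chart (k + 2) X) (υ : Vd (k + 2) → Vd (k + 1)) (p : Vd (k + 2)) : ℂ :=
  α.toFun (υ p) (χ.σ p) fun i => fderiv ℂ χ.σ p (Pi.single i 1)

/-- the form is `Γ`-periodic -/
def Per (α : VForm X Λ u) (Γ : AddSubgroup (Vd (k + 1))) : Prop :=
  ∀ y, ∀ l ∈ Γ, ∀ x ∈ X, u x - y ∈ Λ → ∀ v : Fin (k + 2) → EN N, (∀ i, Tan X x (v i)) → α.toFun (y + l) x v = α.toFun y x v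

/-- the form vanishes on the fibre over `0` -/
def VanZero (α : VForm X Λ u) : Prop := ∀ x ∈ X, u x ∈ Λ → ∀ v : Fin (k + 2) → EN N, (∀ i, Tan X x (v i)) → α.toFun 0 x v = 0

/-- the form is nowhere locally `0` -/
def Thin (α : VForm X Λ u) : Prop :=
  ∀ (χ : Chart (k + 2) X) (υ : Vd (k + 2) → Vd (k + 1)), ∀ p ∈ ball (0 : Vd (k + 2)) 2, AnalyticAt ℂ υ p →
    (∀ᶠ q in 𝓝 p, u (χ.σ q) - υ q ∈ Λ) → ¬ ∀ᶠ q in 𝓝 p, tc α χ υ q = 0

/-- the function `c + ρ (tl p)` -/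
noncomputable def ms (c : Vd (k + 1)) (ρ : ℝ) (p : Vd (k + 2)) : Vd (k + 1) := c + (ρ : ℂ) • tl p

/-- the chart is straight: `u` is `c + ρ (tl p)` -/
structure Str (Λ : AddSubgroup (Vd (k + 1))) (u : EN N → Vd (k + 1)) (χ : Chart (k + 2) X) (c : Vd (k + 1)) (ρ : ℝ) : Prop where
  pos : 0 < ρ
  lift : ∀ p ∈ ball (0 : Vd (k + 2)) 2, u (χ.σ p) - ms c ρ p ∈ Λ

/-- `A` is the primitive of the coefficient of the form in the direction of the coordinate `0` -/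
structure IsPrim (α : VForm X Λ u) (χ : Chart (k + 2) X) (υ : Vd (k + 2) → Vd (k + 1)) (A : Vd (k + 2) → ℂ) : Prop where
  an : ∀ p ∈ ball (0 : Vd (k + 2)) 2, AnalyticAt ℂ A p
  der : ∀ p ∈ ball (0 : Vd (k + 2)) 2, fderiv ℂ A p (Pi.single 0 1) = tc α χ υ p
  zero : ∀ p ∈ ball (0 : Vd (k + 2)) 2, p 0 = 0 → A p = 0

/-- the straight chart contains all points near `m₀` of the fibres near `y₀` -/
structure Cap (Λ : AddSubgroup (Vd (k + 1))) (u : EN N → Vd (k + 1)) (χ : Chart (k + 2) X) (c : Vd (k + 1)) (ρ : ℝ) (y₀ : Vd (k + 1)) (m₀ : MN N)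
    (r : ℝ) : Prop where
  str : Str Λ u χ c ρ
  cap : ∀ y ∈ closedBall y₀ r, ∀ x ∈ X, u x - y ∈ Λ → dist (pr x) m₀ ≤ r →
    x ∈ χ.U ∧ χ.q x ∈ closedBall (0 : Vd (k + 2)) 1 ∧ ms c ρ (χ.q x) = y

/-- `v` is the integral of `α / dy` from `m` to `m'` along a short path in the fibre over `y` -/
def IRel (α : VForm X Λ u) (ε : ℝ) (y : Vd (k + 1)) (m m' : MN N) (v : ℂ) : Prop :=
  ∃ (χ : Chart (k + 2) X) (c : Vd (k + 1)) (ρ : ℝ) (A : Vd (k + 2) → ℂ) (p p' : Vd (k + 2)), Str Λ u χ c ρ ∧ IsPrim α χ (ms c ρ) A ∧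
    p ∈ ball (0 : Vd (k + 2)) 2 ∧ p' ∈ ball (0 : Vd (k + 2)) 2 ∧ ms c ρ p = y ∧ ms c ρ p' = y ∧ pr (χ.σ p) = m ∧ pr (χ.σ p') = m' ∧
    (∀ θ ∈ Set.Icc (0 : ℝ) 1, dist (pr (χ.σ (p + (θ : ℂ) • (p' - p)))) m ≤ ε) ∧ v = (A p' - A p) / (ρ : ℂ) ^ (k + 1)

open Classical in
/-- the integral of `α / dy` from `m` to `m'` along a short path in the fibre over `y` -/
noncomputable def II (α : VForm X Λ u) (ε : ℝ) (y : Vd (k + 1)) (m m' : MN N) : ℂ :=
  if h : ∃ v, IRel α ε y m m' v then h.choose else 0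

/-- the points of distance at least `δ` from `D` -/
def Gd (D : Set (Vd (k + 1))) (δ : ℝ) : Set (Vd (k + 1)) := {y | ∀ b ∈ D, δ ≤ ‖y - b‖}

/-- the fibre over `y`, in the projective space -/
def Fb (X : Set (EN N)) (Λ : AddSubgroup (Vd (k + 1))) (u : EN N → Vd (k + 1)) (y : Vd (k + 1)) : Set (MN N) :=
  {m | ∃ x ∈ X, pr x = m ∧ u x - y ∈ Λ}

/-- the translated form -/
def VForm.shift (α : VForm X Λ u) {l : Vd (k + 1)} (hl : l ∈ Λ) : VForm X Λ u where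
  toFun := fun y x v => α.toFun (y + l) x v
  add_smul := fun y x hx hy v hv a => α.add_smul (y + l) x hx (by rw [← sub_sub]; exact Λ.sub_mem hy hl) v hv a
  det := fun y x hx hy v hv A => α.det (y + l) x hx (by rw [← sub_sub]; exact Λ.sub_mem hy hl) v hv A
  scale := fun y x hx hy v hv c hc => α.scale (y + l) x hx (by rw [← sub_sub]; exact Λ.sub_mem hy hl) v hv c hc
  analytic := fun φ υ p hφ hυ h => α.analytic φ (fun q => υ q + l) p hφ (hυ.add analyticAt_const) (by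
    filter_upwards [h] with q hq
    exact ⟨hq.1, by rw [← sub_sub]; exact Λ.sub_mem hq.2 hl⟩)

end Pool.Agent.TG
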